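import Pool.Agent.R1.EvenJohnsonMate
import Pool.Agent.R1.EvenJohnsonFour

/-!
# The even-intersection Johnson graphs on `2k` points are not determined by their spectrum
-/

set_option autoImplicit false

open Finset Matrix

namespace Pool.Agent.Results.MP_b101b2_co.SwitchingMate

open Pool.Agent.R1.EvenJohnson

/-- The generalized Johnson graph `J_S(n, k)`: vertices are the `k`-element subsets of an
`n`-element set, two distinct ones being adjacent iff the size of their intersection is in `S`. -/
def genJohnson (n k : ℕ) (S : Set ℕ) : SimpleGraph {A : Finset (Fin n) // A.card = k} where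
  Adj A B := A ≠ B ∧ (A.1 ∩ B.1).card ∈ S
  symm := ⟨fun A B h => ⟨h.1.symm, by rw [inter_comm]; exact h.2⟩⟩
  loopless := ⟨fun A h => h.1 rfl⟩

/-- the even numbers `s` with `2 ≤ s ≤ k - 1` -/
def evens (k : ℕ) : Set ℕ := {s | 2 ≤ s ∧ s ≤ k - 1 ∧ Even s}

lemma genJohnson_eq (k : ℕ) (hk : 4 ≤ k) :
    genJohnson (2 * k) k (evens k) = gr (b (k := k)) b_comm := by
  ext A B
  change (A ≠ B ∧ (2 ≤ (A.1 ∩ B.1).card ∧ (A.1 ∩ B.1).card ≤ k - 1 ∧ Even (A.1 ∩ B.1).card)) ↔
    (A ≠ B ∧ B ≠ cpl A ∧ b A B = 0)
  have hb : b A B = 0 ↔ Even (A.1 ∩ B.1).card := by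
    rw [b, dot_chi, ZMod.natCast_eq_zero_iff_even]
  rw [hb]
  constructor
  · rintro ⟨h1, h2, h3, h4⟩
    refine ⟨h1, ?_, h4⟩
    rintro rfl
    have h5 : A.1 ∩ (cpl A).1 = ∅ := inter_compl A.1
    rw [h5, card_empty] at h2
    omega
  · rintro ⟨h1, h2, h3⟩
    refine ⟨h1, ?_, ?_, h3⟩
    · have h4 : (A.1 ∩ B.1).card ≠ 0 := by
        intro h5
        rw [card_eq_zero] at h5
        apply h2
        apply Subtype.ext
        apply eq_of_subset_of_card_le
        · intro i hi
          change i ∈ (A.1)ᶜ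
          rw [mem_compl]
          intro hi'
          have h6 : i ∈ A.1 ∩ B.1 := mem_inter.2 ⟨hi', hi⟩
          rw [h5] at h6
          exact absurd h6 (notMem_empty i)
        · rw [(cpl A).2, B.2]
      obtain ⟨m, hm⟩ := h3
      omega
    · have h4 : (A.1 ∩ B.1).card < k := by
        by_contra h5
        push Not at h5
        have h6 : A.1 ∩ B.1 = A.1 := eq_of_subset_of_card_le inter_subset_left (by rw [A.2]; exact h5)
        have h7 : A.1 ⊆ B.1 := by rw [← h6]; exact inter_subset_right
        exact h1 (Subtype.ext (eq_of_subset_of_card_le h7 (by rw [A.2, B.2])))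
      omega

/-- the four special points `0, 3, 1, 2` and the two halves of the other points -/
def stp (k : ℕ) (hk : 4 ≤ k) : Setup k where
  P a := if a then ⟨0, by omega⟩ else ⟨3, by omega⟩
  R a := if a then ⟨1, by omega⟩ else ⟨2, by omega⟩
  X r := if r then Finset.Ico ⟨4, by omega⟩ ⟨k + 2, by omega⟩ else Finset.Ici ⟨k + 2, by omega⟩
  hk := hk
  hP := by simp
  hR := by simp
  hPR := by intro a b; cases a <;> cases b <;> simp
  hX := by
    intro r
    cases r
    · simp only [Bool.false_eq_true, if_false, Fin.card_Ici]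
      omega
    · simp only [if_true, Fin.card_Ico]
      omega
  hPX := by
    intro r a
    cases r <;> cases a <;> simp [Fin.le_def] <;> omega
  hRX := by
    intro r a
    cases r <;> cases a <;> simp [Fin.le_def] <;> omega
  hXX := by
    intro r i
    cases r <;> simp [Fin.le_def, Fin.lt_def]
    omega
  hcov := by
    intro i
    obtain ⟨i, hi⟩ := i
    simp only [Bool.exists_bool, if_true, Bool.false_eq_true, if_false, mem_Ico, mem_Ici,
      Fin.le_def, Fin.lt_def, Fin.mk.injEq]
    omega

open Classical in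
/-- **Even-intersection Johnson graphs on `2k` points.**  For every `k ≥ 4` the graph
`J_{2,4,...}(2k, k)` has a cospectral mate: a graph with the same characteristic polynomial of
the adjacency matrix (hence the same spectrum) which is not isomorphic to it. -/
theorem result : ∀ k : ℕ, 4 ≤ k →
    ∃ H : SimpleGraph {A : Finset (Fin (2 * k)) // A.card = k},
      (H.adjMatrix ℝ).charpoly = ((genJohnson (2 * k) k (evens k)).adjMatrix ℝ).charpoly ∧
      (H.adjMatrix ℝ).charpoly.roots =
        ((genJohnson (2 * k) k (evens k)).adjMatrix ℝ).charpoly.roots ∧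
      IsEmpty (genJohnson (2 * k) k (evens k) ≃g H) := by
  intro k hk
  obtain ⟨S, hS⟩ : ∃ S : Setup k, ∀ (s : Fin (2 * k) → ZMod 2) (Ex : Finset (V k)),
      Ex.card ≤ 14 → ∃ v, v ∉ Ex ∧ s ⬝ᵥ chi v.1 + S.t0 v = 1 := by
    rcases Nat.lt_or_ge 4 k with h | h
    · exact ⟨stp k hk, fun s Ex hE => (stp k hk).count1 h s Ex hE⟩
    · have h4 : k = 4 := le_antisymm h hk
      subst h4
      exact ⟨S4, fun s Ex hE => count1_four s Ex hE⟩
  have h1 : ((gr S.F S.F_comm).adjMatrix ℝ).charpoly =
      ((genJohnson (2 * k) k (evens k)).adjMatrix ℝ).charpoly := by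
    have h2 := S.cospectral
    have h3 := genJohnson_eq k hk
    rw [h2]
    congr 1
    ext A B
    simp only [SimpleGraph.adjMatrix_apply, h3]
  refine ⟨gr S.F S.F_comm, h1, by rw [h1], ⟨fun e => ?_⟩⟩
  rw [genJohnson_eq k hk] at e
  exact S.not_quad hS (quad_iso e (quad_orig hk))

end Pool.Agent.Results.MP_b101b2_co.SwitchingMate
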